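import Pool.Agent.Lib.helper22.CXEtrD

namespace Pool.Agent.Results.MP_49d20d_lc.Hard

open Pool.Agent.Lib.CX Pool.Agent.Lib.ER Matrix

/-- the matrix vanishes at every position not marked `true` in the pattern -/
def Fits {n : ℕ} (P : List (List Bool)) (X : Matrix (Fin n) (Fin n) ℝ) : Prop :=
  ∀ i j : Fin n, (P.getD i []).getD j false = false → X i j = 0

/-- both patterns are square of size `n` -/
def Sq (a : List Unit × List (List Bool) × List (List Bool)) : Prop :=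
  a.2.1.length = a.1.length ∧ a.2.2.length = a.1.length ∧ (∀ l ∈ a.2.1, l.length = a.1.length) ∧
    ∀ l ∈ a.2.2, l.length = a.1.length

def CI (a : List Unit × List (List Bool) × List (List Bool)) : Prop :=
  ∃ X Y : Matrix (Fin a.1.length) (Fin a.1.length) ℝ, Fits a.2.1 X ∧ Fits a.2.2 Y ∧ X * Y = 1

def pat (n : ℕ) (s : ℕ → ℕ → Bool) : List (List Bool) := (List.range n).map fun i => (List.range n).map (s i)

theorem fits_pat {n s} (X : Matrix (Fin n) (Fin n) ℝ) : Fits (pat n s) X ↔ ∀ i j : Fin n, s i j = false → X i j = 0 := by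
  simp [Fits, pat]

abbrev Nm := ℕ × ℕ × ℕ

def ob (M : ℕ) : List Nm :=
  [(0, 0, 0), (1, 0, 0), (2, 0, 0), (3, 0, 0)] ++ (List.range M).flatMap (fun v => [(4, v, 0), (5, v, 0), (6, v, 0), (7, v, 0)]) ++
    (List.range M ×ˢ List.range M).flatMap fun p => [(8, p.1, p.2), (9, p.1, p.2)]

def zs (M : ℕ) (E : List Q4) : List (Nm × Nm) :=
  [((2, 0, 0), (5, 0, 0)), ((4, 0, 0), (3, 0, 0))] ++
    (List.range M).flatMap (fun v => [((6, v, 0), (7, v, 0)), ((8, v, v), (1, 0, 0)), ((0, 0, 0), (9, v, v))]) ++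
    (List.range M ×ˢ List.range M).flatMap (fun p => [((8, p.1, p.2), (5, p.1, 0)), ((8, p.1, p.2), (7, p.2, 0)),
      ((4, p.1, 0), (9, p.1, p.2)), ((6, p.2, 0), (9, p.1, p.2))]) ++
    E.map fun e => ((8, e.1, e.2.2.1), (9, e.2.1, e.2.2.2))

def rp : List (ℕ × ℕ) := [(0, 0), (0, 2), (1, 0), (2, 0), (2, 2), (3, 0), (4, 0), (4, 1), (5, 0), (6, 1), (6, 2), (7, 1),
  (8, 0), (8, 1), (8, 2), (9, 1)]

def cp : List (ℕ × ℕ) := [(0, 0), (1, 0), (1, 1), (2, 0), (3, 0), (3, 1), (4, 0), (5, 0), (5, 2), (6, 2), (7, 1), (7, 2),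
  (8, 2), (9, 0), (9, 1), (9, 2)]

def sa (O : List Nm) (Z : List (Nm × Nm)) (i j : ℕ) : Bool :=
  if i < O.length then (if j < O.length then false else if j < O.length + 3 then
    decide (((O.getD i (0, 0, 0)).1, j - O.length) ∈ rp) else
    decide (i ≠ j - (O.length + 3) ∧ (O.getD i (0, 0, 0), O.getD (j - (O.length + 3)) (0, 0, 0)) ∉ Z)) else true

def sb (O : List Nm) (i j : ℕ) : Bool :=
  if j < O.length then (if i < O.length then false else if i < O.length + 3 then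
    decide (((O.getD j (0, 0, 0)).1, i - O.length) ∈ cp) else decide (i - (O.length + 3) = j)) else true

def mk (O : List Nm) (Z : List (Nm × Nm)) : List Unit × List (List Bool) × List (List Bool) :=
  (List.replicate (O.length + (3 + O.length)) (), pat (O.length + (3 + O.length)) (sa O Z),
    pat (O.length + (3 + O.length)) (sb O))

def Vec (O : List Nm) (Z : List (Nm × Nm)) : Prop :=
  ∃ p c : Nm → Fin 3 → ℝ, (∀ u ∈ O, (∀ k, (u.1, k.1) ∉ rp → p u k = 0) ∧ (∀ k, (u.1, k.1) ∉ cp → c u k = 0) ∧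
    p u ⬝ᵥ c u = 1) ∧ ∀ e ∈ Z, p e.1 ⬝ᵥ c e.2 = 0

theorem mk_iff {O Z} (hZ : ∀ e ∈ Z, e.1 ∈ O ∧ e.2 ∈ O ∧ e.1 ≠ e.2) : CI (mk O Z) ↔ Vec O Z := by
  have : CI (mk O Z) ↔ ∃ X Y : Matrix (Fin (O.length + (3 + O.length))) (Fin (O.length + (3 + O.length))) ℝ,
      Fits (mk O Z).2.1 X ∧ Fits (mk O Z).2.2 Y ∧ X * Y = 1 := by
    unfold CI
    rw [show (mk O Z).1.length = O.length + (3 + O.length) from List.length_replicate]
  rw [this]
  simp only [mk, fits_pat]
  constructor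
  · rintro ⟨X, Y, hX, hY, h⟩
    let ix : Nm → Option (Fin O.length) := fun u => if h : u ∈ O then some ⟨O.idxOf u, List.idxOf_lt_length_of_mem h⟩ else none
    have key : ∀ i j : Fin O.length, (i = j ∨ (O[i], O[j]) ∈ Z) →
        ∑ k : Fin 3, X (i.castAdd _) ((k.castAdd _).natAdd _) * Y ((k.castAdd _).natAdd _) (j.castAdd _) =
          if i = j then 1 else 0 := fun i j c => by
      have := congrFun (congrFun h (i.castAdd _)) (j.castAdd _)
      rw [mul_apply, Fin.sum_univ_add, Fin.sum_univ_add, Finset.sum_eq_zero fun k _ => ?_,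
        Finset.sum_eq_zero (s := Finset.univ (α := Fin O.length)) fun k _ => ?_] at this
      · simpa [one_apply] using this
      · by_cases e : k = j
        · rw [hX _ _ (by simp [sa, e, ← add_assoc]; grind), zero_mul]
        · rw [hY _ _ (by simp [sb, ← add_assoc, Fin.val_ne_of_ne e]), mul_zero]
      · rw [hX _ _ (by simp [sa]), zero_mul]
    refine ⟨fun u k => (ix u).elim 0 fun i => X (i.castAdd _) ((k.castAdd _).natAdd _),
      fun u k => (ix u).elim 0 fun i => Y ((k.castAdd _).natAdd _) (i.castAdd _), fun u hu => ⟨fun k c => ?_, fun k c => ?_, ?_⟩,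
      fun e he => ?_⟩
    · simp only [ix, hu, dif_pos, Option.elim]
      exact hX _ _ (by simp [sa, List.idxOf_lt_length_of_mem hu, c])
    · simp only [ix, hu, dif_pos, Option.elim]
      exact hY _ _ (by simp [sb, List.idxOf_lt_length_of_mem hu, c])
    · simpa [ix, hu, dotProduct] using key ⟨_, List.idxOf_lt_length_of_mem hu⟩ _ (Or.inl rfl)
    · obtain ⟨a, b, c⟩ := hZ e he
      have := key ⟨_, List.idxOf_lt_length_of_mem a⟩ ⟨_, List.idxOf_lt_length_of_mem b⟩ (Or.inr (by simpa using he))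
      rw [if_neg fun q => c (List.idxOf_inj a |>.1 (congrArg Fin.val q))] at this
      simpa [ix, a, b, dotProduct] using this
  · rintro ⟨p, c, h1, h2⟩
    let A : Matrix (Fin O.length) (Fin 3 ⊕ Fin O.length) ℝ := fun i =>
      Sum.elim (p O[i]) fun j => (if i = j then 1 else 0) - p O[i] ⬝ᵥ c O[j]
    let B : Matrix (Fin 3 ⊕ Fin O.length) (Fin O.length) ℝ := fun k j => Sum.elim (c O[j]) (fun i => if i = j then 1 else 0) k
    have AB : A * B = 1 := by
      ext i j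
      simp [A, B, mul_apply, dotProduct, one_apply]
    let e : Fin O.length ⊕ Fin 3 ⊕ Fin O.length ≃ Fin (O.length + (3 + O.length)) :=
      (Equiv.sumCongr (Equiv.refl _) finSumFinEquiv).trans finSumFinEquiv
    have W : fromBlocks 0 A B (1 - B * A) * fromBlocks 0 A B (1 - B * A) = 1 := by
      rw [fromBlocks_multiply, ← fromBlocks_one]
      simp [Matrix.mul_sub, Matrix.sub_mul, Matrix.mul_assoc, AB, ← Matrix.mul_assoc A B]
    have n3 : ∀ i, ¬O.length + 3 + i < O.length := fun i => by omega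
    refine ⟨reindex e e (fromBlocks 0 A B (1 - B * A)), reindex e e (fromBlocks 0 A B (1 - B * A)), fun i j h => ?_,
      fun i j h => ?_, by simp [W]⟩
    · obtain ⟨i, rfl⟩ := e.surjective i
      obtain ⟨j, rfl⟩ := e.surjective j
      simp only [reindex_apply, submatrix_apply, Equiv.symm_apply_apply]
      rcases i with i | i | i <;> rcases j with j | j | j <;> simp [e, sa, ← add_assoc, n3] at h ⊢
      · exact (h1 _ (List.getElem_mem _)).1 j h
      · by_cases q : i = j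
        · simp [A, q, (h1 _ (List.getElem_mem _)).2.2]
        · simp [A, q, h2 _ (h (Fin.val_ne_of_ne q))]
    · obtain ⟨i, rfl⟩ := e.surjective i
      obtain ⟨j, rfl⟩ := e.surjective j
      simp only [reindex_apply, submatrix_apply, Equiv.symm_apply_apply]
      rcases i with i | i | i <;> rcases j with j | j | j <;> simp [e, sb, ← add_assoc, n3] at h ⊢
      · exact (h1 _ (List.getElem_mem _)).2.1 i h
      · simp [B, Fin.ext_iff, h]

theorem all_ob {M} (P : Nm → Prop) : (∀ v ∈ ob M, P v) ↔ (P (0, 0, 0) ∧ P (1, 0, 0) ∧ P (2, 0, 0) ∧ P (3, 0, 0)) ∧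
    (∀ v < M, P (4, v, 0) ∧ P (5, v, 0) ∧ P (6, v, 0) ∧ P (7, v, 0)) ∧ ∀ a < M, ∀ c < M, P (8, a, c) ∧ P (9, a, c) := by
  simp only [ob, List.forall_mem_append, List.forall_mem_cons, List.forall_mem_flatMap, List.not_mem_nil, false_imp_iff,
    implies_true, and_true, List.mem_range, and_assoc, Prod.forall, List.mem_product, and_imp]
  exact and_congr_right fun _ => and_congr_right fun _ => and_congr_right fun _ => and_congr_right fun _ =>
    and_congr_right fun _ => ⟨fun h a ha c hc => h a c ha hc, fun h a c ha hc => h a ha c hc⟩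

theorem all_zs {M E} (P : Nm × Nm → Prop) : (∀ e ∈ zs M E, P e) ↔
    (P ((2, 0, 0), (5, 0, 0)) ∧ P ((4, 0, 0), (3, 0, 0))) ∧
    (∀ v < M, P ((6, v, 0), (7, v, 0)) ∧ P ((8, v, v), (1, 0, 0)) ∧ P ((0, 0, 0), (9, v, v))) ∧
    (∀ a < M, ∀ c < M, P ((8, a, c), (5, a, 0)) ∧ P ((8, a, c), (7, c, 0)) ∧ P ((4, a, 0), (9, a, c)) ∧
      P ((6, c, 0), (9, a, c))) ∧ ∀ e ∈ E, P ((8, e.1, e.2.2.1), (9, e.2.1, e.2.2.2)) := by
  simp only [zs, List.forall_mem_append, List.forall_mem_cons, List.forall_mem_flatMap, List.not_mem_nil, false_imp_iff,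
    implies_true, and_true, List.mem_range, and_assoc, List.forall_mem_map]
  refine and_congr_right fun _ => and_congr_right fun _ => and_congr_right fun _ =>
    and_congr_left fun _ => ⟨fun h a ha c hc => h (a, c) (by simp [ha, hc]), fun h ⟨a, c⟩ hp => ?_⟩
  simp at hp
  exact h a hp.1 c hp.2

theorem pt_mk : PT fun a : List Unit × List Q4 => mk (ob a.1.length) (zs a.1.length a.2) := by
  have h1 : PT fun a : List Unit × List Q4 => ob a.1.length := by unfold ob; fun_prop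
  have h2 : PT fun a : List Unit × List Q4 => zs a.1.length a.2 := by unfold zs; fun_prop
  have h3 : PT fun a : List Nm × List (Nm × Nm) => mk a.1 a.2 := by unfold mk pat sa sb; fun_prop
  exact h3.comp (h1.pair h2)

theorem result : Red ETR fun a : {a // Sq a} => CI a.1 := by
  refine etr_of_dq (fun a => ⟨mk (ob a.1.length) (zs a.1.length a.2), by simp [Sq, mk, pat]⟩)
    (PT.subtype pt_mk fun a => by simp [Sq, mk, pat]) fun M E h0 hE => ?_
  obtain ⟨⟨a0, a1, a2, a3⟩, b, c⟩ := (all_ob (M := M.length) (· ∈ ob M.length)).1 fun _ h => h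
  rw [mk_iff (by
    rw [all_zs]
    refine ⟨by simp [*], fun v hv => by simp [*], fun v hv w hw => by simp [*], fun e he => ?_⟩
    obtain ⟨h1, h2, h3, h4⟩ := hE e he
    simp [*])]
  unfold Vec
  simp only [all_ob, all_zs, rp, cp, Fin.forall_fin_succ, vec3_dotProduct]
  simp
  constructor
  · intro x x0 _ h
    refine ⟨fun u => if u.1 = 0 ∨ u.1 = 2 then ![1, 0, 1] else if u.1 = 4 then ![1, -x u.2.1, 0] else if u.1 = 6 then
      ![0, x u.2.1, 1] else if u.1 = 8 then ![x u.2.1, x u.2.2, 1] else if u.1 = 7 ∨ u.1 = 9 then ![0, 1, 0] else ![1, 0, 0],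
      fun u => if u.1 = 1 then ![1, -1, 0] else if u.1 = 3 then ![1, 1, 0] else if u.1 = 5 then ![1, 0, -x u.2.1] else
      if u.1 = 7 then ![0, 1, -x u.2.1] else if u.1 = 9 then ![x u.2.1, 1, -x u.2.2] else if u.1 = 6 ∨ u.1 = 8 then
      ![0, 0, 1] else ![1, 0, 0], by simp, by simp [x0], by simp, by simp, fun a b c d he => ?_⟩
    have := h a b c d he
    simp [Q4.ok] at this ⊢
    linarith
  · intro p c a1 a2 a3 a4 b1 b2 b3 b4 c1 c2 c3 c4 d1 d2 d3 d4 h1 h2 e1 e2 h3 h4 h5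
    clear a0 b
    simp only [a1, a2, a3, b1, b2, b3, c1, c2, c3, d1, d2, d3, mul_zero, zero_mul, add_zero] at a4 b4 c4 d4 e1 e2 h3
    have n : ∀ v < M.length, (p (4, v, 0) 0 ≠ 0 ∧ p (4, v, 0) 2 = 0) ∧ (c (5, v, 0) 0 ≠ 0 ∧ c (5, v, 0) 1 = 0) ∧
        (p (6, v, 0) 2 ≠ 0 ∧ p (6, v, 0) 0 = 0) ∧ c (7, v, 0) 1 ≠ 0 ∧ c (7, v, 0) 0 = 0 := fun v hv => by
      obtain ⟨⟨x1, ⟨x2, x3⟩, x4⟩, ⟨⟨y1, y2⟩, y3, y4⟩, ⟨z1, ⟨z2, z3⟩, z4⟩, ⟨w1, w2⟩, w3, w4⟩ := h1 v hv
      exact ⟨⟨fun q => by simp [q, x1, x2] at x4, x1⟩, ⟨fun q => by simp [q, y1, y2] at y4, y3⟩,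
        ⟨fun q => by simp [q, z2, z3] at z4, z1⟩, fun q => by simp [q, w1, w2] at w4, w3⟩
    have m : ∀ a < M.length, ∀ b < M.length, p (8, a, b) 2 ≠ 0 ∧ c (9, a, b) 1 ≠ 0 := fun a ha b hb => by
      obtain ⟨⟨⟨x1, x2⟩, x3⟩, ⟨y1, y2⟩, y3⟩ := h2 a ha b hb
      exact ⟨fun q => by simp [q, x1, x2] at x3, fun q => by simp [q, y1, y2] at y3⟩
    clear h1 h2
    obtain ⟨ξ, hξ⟩ : ∃ ξ : ℕ → ℝ, ∀ v < M.length, c (5, v, 0) 2 = -ξ v * c (5, v, 0) 0 :=
      ⟨fun v => -c (5, v, 0) 2 / c (5, v, 0) 0, fun v hv => by have := (n v hv).2.1.1; field_simp⟩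
    obtain ⟨η, hη⟩ : ∃ η : ℕ → ℝ, ∀ v < M.length, c (7, v, 0) 2 = -η v * c (7, v, 0) 1 :=
      ⟨fun v => -c (7, v, 0) 2 / c (7, v, 0) 1, fun v hv => by have := (n v hv).2.2.2.1; field_simp⟩
    obtain ⟨γ, hγ⟩ : ∃ γ : ℕ → ℝ, ∀ v < M.length, p (4, v, 0) 1 = -γ v * p (4, v, 0) 0 :=
      ⟨fun v => -p (4, v, 0) 1 / p (4, v, 0) 0, fun v hv => by have := (n v hv).1.1; field_simp⟩
    have P : ∀ a < M.length, ∀ b < M.length, (p (8, a, b) 0 = ξ a * p (8, a, b) 2 ∧ p (8, a, b) 1 = η b * p (8, a, b) 2) ∧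
        c (9, a, b) 0 = γ a * c (9, a, b) 1 ∧ c (9, a, b) 2 = -η b * c (9, a, b) 1 := fun a ha b hb => by
      obtain ⟨x1, x2, x3, x4⟩ := h4 a ha b hb
      obtain ⟨⟨y1, y2⟩, ⟨y3, y4⟩, -⟩ := n a ha
      obtain ⟨-, -, ⟨z1, z2⟩, z3, z4⟩ := n b hb
      have w := (h3 b hb).1
      rw [hξ a ha, y4] at x1
      rw [hη b hb, z4] at x2 w
      rw [hγ a ha, y2] at x3
      rw [z2] at x4
      have w2 : p (6, b, 0) 1 = η b * p (6, b, 0) 2 := mul_right_cancel₀ z3 (by linarith)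
      rw [w2] at x4
      exact ⟨⟨mul_right_cancel₀ y3 (by linarith), mul_right_cancel₀ z3 (by linarith)⟩, mul_right_cancel₀ y1 (by linarith),
        mul_right_cancel₀ z1 (by linarith)⟩
    have k1 := right_ne_zero_of_mul_eq_one b4
    have k2 := left_ne_zero_of_mul_eq_one a4
    obtain ⟨μ, hμ⟩ : ∃ μ, c (1, 0, 0) 1 = -μ * c (1, 0, 0) 0 := ⟨-c (1, 0, 0) 1 / c (1, 0, 0) 0, by field_simp⟩
    obtain ⟨ν, hν⟩ : ∃ ν, p (0, 0, 0) 2 = ν * p (0, 0, 0) 0 := ⟨p (0, 0, 0) 2 / p (0, 0, 0) 0, by field_simp⟩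
    have R : ∀ v < M.length, ξ v = μ * η v ∧ γ v = ν * η v := fun v hv => by
      obtain ⟨-, x1, x2⟩ := h3 v hv
      obtain ⟨⟨y1, y2⟩, y3, y4⟩ := P v hv v hv
      rw [y1, y2, hμ] at x1
      rw [y3, y4, hν] at x2
      exact ⟨mul_right_cancel₀ (mul_ne_zero k1 (m v hv v hv).1) (by linarith),
        mul_right_cancel₀ (mul_ne_zero k2 (m v hv v hv).2) (by linarith)⟩
    refine ⟨fun v => μ * ν * η v, ?_, fun a b c d he => ?_⟩
    · have x1 : μ * η 0 ≠ 0 := fun q => by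
        rw [hξ 0 h0, (R 0 h0).1, q] at e1
        simp [(n 0 h0).2.1.1, left_ne_zero_of_mul_eq_one c4] at e1
      have x2 : ν * η 0 ≠ 0 := fun q => by
        rw [hγ 0 h0, (R 0 h0).2, q] at e2
        simp [(n 0 h0).1.1, right_ne_zero_of_mul_eq_one d4] at e2
      exact mul_ne_zero (mul_ne_zero (left_ne_zero_of_mul x1) (left_ne_zero_of_mul x2)) (right_ne_zero_of_mul x2)
    · obtain ⟨q1, q2, q3, q4⟩ := hE _ he
      have := h5 a b c d he
      rw [(P a q1 c q3).1.1, (P a q1 c q3).1.2, (P b q2 d q4).2.1, (P b q2 d q4).2.2, (R a q1).1, (R b q2).2] at this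
      have k : μ * η a * (ν * η b) + η c - η d = 0 :=
        mul_right_cancel₀ (mul_ne_zero (m a q1 c q3).1 (m b q2 d q4).2) (by linarith)
      unfold Q4.ok
      linear_combination μ * ν * k

end Pool.Agent.Results.MP_49d20d_lc.Hard
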